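import Pool.Agent.N929.AC.Stm
import Pool.Agent.Helper114.MontelSol

/-!
# Project AC, leaf VIT: Vitali's theorem (by Montel's theorem along ultrafilters, helper114)
-/

set_option autoImplicit false

namespace Pool.Agent.N45.AC

open Set Filter Topology Metric Pool.Agent.N929.AC

/-- local boundedness of a sequence of functions -/
def LB (U : Set ℂ) (F : ℕ → ℂ → ℂ) : Prop :=
  ∀ z ∈ U, ∃ N ∈ 𝓝 z, ∃ M : ℝ, ∀ n, ∀ y ∈ N, ‖F n y‖ ≤ M

/-- Montel along an ultrafilter for locally bounded sequences. -/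
theorem locmontel {U : Set ℂ} (hU : IsOpen U) (F : ℕ → ℂ → ℂ)
    (hF : ∀ n, DifferentiableOn ℂ (F n) U) (hb : LB U F) (𝒰 : Ultrafilter ℕ) :
    ∃ Φ : ℂ → ℂ, DifferentiableOn ℂ Φ U ∧ ∀ z ∈ U, Tendsto (fun n => F n z) 𝒰 (𝓝 (Φ z)) := by
  have h1 : ∀ z, ∃ v : ℂ, z ∈ U → Tendsto (fun n => F n z) 𝒰 (𝓝 v) := by
    intro z
    by_cases hz : z ∈ U
    · obtain ⟨N, hN, M, hM⟩ := hb z hz
      have hcomp := isCompact_closedBall (0 : ℂ) M
      have hle : ((𝒰.map (fun n => F n z) : Ultrafilter ℂ) : Filter ℂ) ≤ 𝓟 (closedBall 0 M) := by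
        rw [le_principal_iff, Ultrafilter.coe_map, Filter.mem_map]
        refine Filter.mem_of_superset Filter.univ_mem ?_
        intro n _
        show F n z ∈ closedBall 0 M
        rw [mem_closedBall_zero_iff]
        exact hM n z (mem_of_mem_nhds hN)
      obtain ⟨v, -, hv⟩ := hcomp.ultrafilter_le_nhds _ hle
      exact ⟨v, fun _ => hv⟩
    · exact ⟨0, fun h => absurd h hz⟩
  choose Φ hΦ using h1
  refine ⟨Φ, ?_, fun z hz => hΦ z hz⟩
  intro z hz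
  obtain ⟨N, hN, M, hM⟩ := hb z hz
  obtain ⟨W, hWs, hWo, hzW⟩ := _root_.mem_nhds_iff.1 (inter_mem hN (hU.mem_nhds hz))
  obtain ⟨Ψ, hΨ, hlim⟩ := Pool.Agent.Helper114.Montel.montel hWo F
    (fun n => (hF n).mono (fun x hx => (hWs hx).2)) M (fun n y hy => hM n y (hWs hy).1) 𝒰
  have heq : ∀ w ∈ W, Φ w = Ψ w := fun w hw =>
    tendsto_nhds_unique (hΦ w (hWs hw).2) (hlim.tendsto_at hw)
  have h2 : DifferentiableAt ℂ Ψ z := (hΨ z hzW).differentiableAt (hWo.mem_nhds hzW)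
  have h3 : Φ =ᶠ[𝓝 z] Ψ := by
    filter_upwards [hWo.mem_nhds hzW] with w hw using heq w hw
  exact (h3.differentiableAt_iff.2 h2).differentiableWithinAt

/-- **VIT.** -/
theorem vit : S_VIT := by
  intro Ω D hΩ hpre hD hDn hDΩ P hP hb hconv
  have hLB : LB Ω P := by
    intro z hz
    obtain ⟨r, B, hr, hB⟩ := hb z hz
    exact ⟨ball z r ∩ Ω, inter_mem (ball_mem_nhds z hr) (hΩ.mem_nhds hz), B,
      fun n y hy => hB n y hy⟩
  obtain ⟨f, hf, hfl⟩ := locmontel hΩ P hP hLB (Ultrafilter.of atTop)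
  refine ⟨f, hf, fun z hz => ?_⟩
  rw [tendsto_iff_ultrafilter]
  intro g hg
  obtain ⟨Φ, hΦ, hΦl⟩ := locmontel hΩ P hP hLB g
  have heq : EqOn Φ f Ω := by
    obtain ⟨a, ha⟩ := hDn
    have h1 : AnalyticOnNhd ℂ Φ Ω := hΦ.analyticOnNhd hΩ
    have h2 : AnalyticOnNhd ℂ f Ω := hf.analyticOnNhd hΩ
    refine h1.eqOn_of_preconnected_of_eventuallyEq h2 hpre (hDΩ ha) ?_
    filter_upwards [hD.mem_nhds ha] with w hw
    obtain ⟨l, hl⟩ := hconv w hw
    have e1 := tendsto_nhds_unique (hΦl w (hDΩ hw)) (hl.mono_left hg)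
    have e2 := tendsto_nhds_unique (hfl w (hDΩ hw)) (hl.mono_left (Ultrafilter.of_le _))
    rw [e1, e2]
  rw [← heq hz]
  exact hΦl z hz

end Pool.Agent.N45.AC
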